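import Mathlib
import Pool.Agent.H715.U8.HTPTen

set_option autoImplicit false

/-!
The solvability problem for integer polynomial equations in ten variables is undecidable.
-/

namespace Pool.Agent.Results.MP_fed7c7_lc.TenVariables

/-- There is no algorithm that, given the list of monomials (coefficient and exponents) of an
integer polynomial in ten variables, decides whether it has an integer zero. -/
theorem result : ¬ ComputablePred (fun f : List (ℤ × (Fin 10 → ℕ)) =>
    ∃ a : Fin 10 → ℤ, (f.map fun t => t.1 * ∏ i, a i ^ t.2 i).sum = 0) :=
  Pool.Agent.H715.U8.htp_ten

end Pool.Agent.Results.MP_fed7c7_lc.TenVariables
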